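import Mathlib
import Pool.Prelude.Def_F_c31e40fa
import Pool.Agent.Work.MLC.H24R
import Pool.Agent.Work.MLC.H24S
import Pool.Agent.Work.MLC.H24T

namespace Pool.Agent.Results.MP_c6f924_an.HoelderCardioid

open N62a1eb23

/-- **The Mandelbrot set is Hoelder locally connected along the closed main cardioid**
`{l / 2 - l ^ 2 / 4 : ‖l‖ ≤ 1}`, uniformly and with explicit constants; the exponent cannot be
improved beyond `1 / 2`. -/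
theorem result :
    (∀ l : ℂ, ‖l‖ ≤ 1 → ∀ c ∈ mandelbrotSet, ∃ K ⊆ mandelbrotSet, IsCompact K ∧ IsConnected K ∧
      l / 2 - l ^ 2 / 4 ∈ K ∧ c ∈ K ∧
      ∀ u ∈ K, ‖u - (l / 2 - l ^ 2 / 4)‖ ≤ 90 * ‖c - (l / 2 - l ^ 2 / 4)‖ ^ (1 / 66 : ℝ)) ∧
    ∀ C a : ℝ, (∀ l : ℂ, ‖l‖ ≤ 1 → ∀ c ∈ mandelbrotSet, ∃ K ⊆ mandelbrotSet, IsConnected K ∧
      l / 2 - l ^ 2 / 4 ∈ K ∧ c ∈ K ∧
      ∀ u ∈ K, ‖u - (l / 2 - l ^ 2 / 4)‖ ≤ C * ‖c - (l / 2 - l ^ 2 / 4)‖ ^ a) → a ≤ 1 / 2 := by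
  constructor
  · intro l hl c hc
    have h0 : l / 2 - l ^ 2 / 4 ∈ Pool.Agent.Work.MLC.H24.heart :=
      ⟨l, by simpa using hl, rfl⟩
    obtain ⟨K, h1, h2, h3, h4, h5, h6⟩ := 
      Pool.Agent.Work.MLC.H24.hoelder_explicit Pool.Agent.Work.MLC.H24.childRoot_all h0 hc
    refine ⟨K, h1, h2, ⟨⟨c, h5⟩, h3⟩, h4, h5, fun u hu => ?_⟩
    have h7 := h6 hu
    rwa [Metric.mem_closedBall, dist_eq_norm] at h7
  · intro C a H
    apply Pool.Agent.Work.MLC.H24.exponent_le_half (C := C)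
    intro l hl c hc
    obtain ⟨K, h1, h2, h3, h4, h5⟩ := H l hl c hc
    exact ⟨K, h1, h2.isPreconnected, h3, h4, h5⟩

end Pool.Agent.Results.MP_c6f924_an.HoelderCardioid
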