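import Pool.Agent.Work.MP_c6f924_an_laurent.Part23
import Pool.Agent.Work.MP_c6f924_an_laurent.Part4
import Pool.Agent.Work.MP_c6f924_an_laurent.DH4

set_option autoImplicit false

namespace Pool.Agent.Results.MP_c6f924_an.LaurentModulus

open Set Filter N62a1eb23

/-- The complement of the Mandelbrot set has a Riemann map `ψ z = z + ∑ b m z ^ (-m)`, a bijection
of `{z | 1 < ‖z‖}` onto the complement (the theorem of Douady and Hubbard, proved in the helper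
files). With an absolute constant `κ > 0`: the coefficients satisfy
`∑ |b m| min 1 (m t) ≥ κ / log (1 / t)` for all `t ≤ 1 / 2` (the sum may be infinite);
`∑ |b m| log m` diverges; `|b m| ≥ κ / (m (log m) ^ 2)` for infinitely many `m`; and if
`ψ` extends continuously to the unit circle (by the theorem of Caratheodory this holds exactly when
the Mandelbrot set is locally connected), then for every `t ≤ 1 / 2` the oscillation of the
extension on the arcs of size `t` is somewhere at least `κ / log (1 / t)`. -/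
theorem result :
    (∃ (ψ : ℂ → ℂ) (b : ℕ → ℂ),
      (∀ z : ℂ, 1 < ‖z‖ → HasSum (fun m : ℕ => b m * z⁻¹ ^ m) (ψ z - z)) ∧
      BijOn ψ {z | 1 < ‖z‖} mandelbrotSetᶜ) ∧
    ∃ κ : ℝ, 0 < κ ∧ ∀ (ψ : ℂ → ℂ) (b : ℕ → ℂ),
      (∀ z : ℂ, 1 < ‖z‖ → HasSum (fun m : ℕ => b m * z⁻¹ ^ m) (ψ z - z)) →
      BijOn ψ {z | 1 < ‖z‖} mandelbrotSetᶜ →
      (∀ t : ℝ, 0 < t → t ≤ 1 / 2 → ENNReal.ofReal (κ / Real.log (1 / t)) ≤
        ∑' m : ℕ, ENNReal.ofReal (‖b m‖ * min 1 ((m : ℝ) * t))) ∧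
      (¬ Summable fun m : ℕ => ‖b m‖ * Real.log m) ∧
      (∃ᶠ m : ℕ in atTop, κ / (m * Real.log m ^ 2) ≤ ‖b m‖) ∧
      (∀ Ψ : ℂ → ℂ, ContinuousOn Ψ {z | 1 ≤ ‖z‖} → (∀ z : ℂ, 1 < ‖z‖ → Ψ z = ψ z) →
        ∀ t : ℝ, 0 < t → t ≤ 1 / 2 → ∃ z w : ℂ, ‖z‖ = 1 ∧ ‖w‖ = 1 ∧ ‖z - w‖ ≤ t ∧
          κ / Real.log (1 / t) ≤ ‖Ψ z - Ψ w‖) := by
  refine ⟨Pool.Agent.Work.MP_c6f924_an_laurent.douady_hubbard, ?_⟩
  obtain ⟨κ₁, hκ₁, h1⟩ := Pool.Agent.Work.MP_c6f924_an_laurent.part1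
  obtain ⟨κ₄, hκ₄, h4⟩ := Pool.Agent.Work.MP_c6f924_an_laurent.part4
  refine ⟨min (κ₁ / 8) κ₄, lt_min (by positivity) hκ₄, fun ψ b hL hbij => ?_⟩
  have hmap : ∀ z : ℂ, 1 < ‖z‖ → ψ z ∉ mandelbrotSet := fun z hz => hbij.mapsTo hz
  have hsurj : mandelbrotSetᶜ ⊆ ψ '' {z | 1 < ‖z‖} := hbij.surjOn
  have hlog : ∀ t : ℝ, 0 < t → t ≤ 1 / 2 → 0 < Real.log (1 / t) := fun t ht ht2 =>
    (Real.log_pos (by norm_num)).trans_le
      (Pool.Agent.Work.MP_c6f924_an_laurent.log_two_le ht ht2)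
  have h1' := h1 ψ b hL hmap hsurj
  refine ⟨fun t ht ht2 => ?_, Pool.Agent.Work.MP_c6f924_an_laurent.part2 hκ₁ h1',
    (Pool.Agent.Work.MP_c6f924_an_laurent.part3 hκ₁ h1').mono fun m hm => ?_,
    fun Ψ hΨ heq t ht ht2 => ?_⟩
  · refine le_trans (ENNReal.ofReal_le_ofReal ?_) (h1' t ht ht2)
    have := hlog t ht ht2
    gcongr
    exact (min_le_left _ _).trans (by linarith)
  · refine le_trans ?_ hm
    gcongr
    exact min_le_left _ _
  · obtain ⟨z, w, hz, hw, hzw, h⟩ := h4 ψ b hL hmap hbij.injOn hsurj Ψ hΨ heq t ht ht2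
    refine ⟨z, w, hz, hw, hzw, le_trans ?_ h⟩
    have := hlog t ht ht2
    gcongr
    exact min_le_right _ _

end Pool.Agent.Results.MP_c6f924_an.LaurentModulus
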